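import Pool.Agent.Helper28.EC.Unif

/-!
# Entropy gain of a convolution on `ZMod n`
-/

set_option autoImplicit false

namespace PoolAgent.Helper66.LocZ

open Finset Real PoolAgent.Helper28.EC

variable {n : ℕ} [NeZero n]

lemma sum_range_zmod (F : ZMod n → ℝ) : ∑ x ∈ range n, F (x : ZMod n) = ∑ z, F z := by
  refine Finset.sum_nbij' (fun x => (x : ZMod n)) (fun z => z.val) ?_ ?_ ?_ ?_ ?_
  · intro x _
    exact Finset.mem_univ _
  · intro z _
    rw [Finset.mem_range]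
    exact ZMod.val_lt z
  · intro x hx
    rw [Finset.mem_range] at hx
    exact ZMod.val_cast_of_lt hx
  · intro z _
    exact ZMod.natCast_zmod_val z
  · intro x _
    rfl

lemma sum_shift (F : ZMod n → ℝ) (c : ZMod n) : ∑ x, F (x - c) = ∑ x, F x :=
  Fintype.sum_equiv (Equiv.subRight c) _ _ fun _ => rfl

/-- Jensen with the quadratic gain -/
lemma gap {κ : Type*} (s : Finset κ) (ν y : κ → ℝ) (hν : ∀ c ∈ s, 0 ≤ ν c) (hν1 : ∑ c ∈ s, ν c = 1)
    (hy : ∀ c ∈ s, y c ∈ Set.Icc (0 : ℝ) 1) :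
    ∑ c ∈ s, ν c * Real.negMulLog (y c) + (∑ c ∈ s, ν c * y c ^ 2 - (∑ c ∈ s, ν c * y c) ^ 2) / 2 ≤
      Real.negMulLog (∑ c ∈ s, ν c * y c) := by
  have h1 := concave_aux.le_map_sum (t := s) (w := ν) (p := y) hν hν1 hy
  simp only [smul_eq_mul] at h1
  have h2 : ∑ c ∈ s, ν c * (Real.negMulLog (y c) + y c ^ 2 / 2) =
      ∑ c ∈ s, ν c * Real.negMulLog (y c) + (∑ c ∈ s, ν c * y c ^ 2) / 2 := by
    rw [Finset.sum_div, ← Finset.sum_add_distrib]
    exact Finset.sum_congr rfl fun c _ => by ring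
  rw [h2] at h1
  linarith

/-- sum of the squared distances of the translates -/
lemma dist_sum (q ν : ZMod n → ℝ) (hν1 : ∑ c, ν c = 1) :
    ∑ c, ∑ c', ν c * ν c' * ∑ x, (q (x - c) - q (x - c')) ^ 2 =
      2 * (∑ x, ∑ c, ν c * q (x - c) ^ 2 - ∑ x, (∑ c, ν c * q (x - c)) ^ 2) := by
  have e1 : ∀ c c', ν c * ν c' * ∑ x, (q (x - c) - q (x - c')) ^ 2 =
      ν c' * (ν c * ∑ x, q (x - c) ^ 2) + ν c * (ν c' * ∑ x, q (x - c') ^ 2) -
        2 * ∑ x, (ν c * q (x - c)) * (ν c' * q (x - c')) := by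
    intro c c'
    rw [Finset.mul_sum, Finset.mul_sum, Finset.mul_sum, Finset.mul_sum, Finset.mul_sum, Finset.mul_sum,
      ← Finset.sum_add_distrib, ← Finset.sum_sub_distrib]
    exact Finset.sum_congr rfl fun x _ => by ring
  simp only [e1]
  simp only [Finset.sum_sub_distrib, Finset.sum_add_distrib]
  have e2 : ∑ c, ∑ c', ν c' * (ν c * ∑ x, q (x - c) ^ 2) = ∑ x, ∑ c, ν c * q (x - c) ^ 2 := by
    rw [Finset.sum_comm]
    simp only [← Finset.mul_sum]
    rw [← Finset.sum_mul, hν1, one_mul, Finset.sum_comm]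
    exact Finset.sum_congr rfl fun c _ => by rw [Finset.mul_sum]
  have e3 : ∑ c, ∑ c', ν c * (ν c' * ∑ x, q (x - c') ^ 2) = ∑ x, ∑ c, ν c * q (x - c) ^ 2 := by
    simp only [← Finset.mul_sum]
    rw [← Finset.sum_mul, hν1, one_mul, Finset.sum_comm]
    exact Finset.sum_congr rfl fun c _ => by rw [Finset.mul_sum]
  have e4 : ∑ c, ∑ c', 2 * ∑ x, (ν c * q (x - c)) * (ν c' * q (x - c')) = 2 * ∑ x, (∑ c, ν c * q (x - c)) ^ 2 := by
    simp only [← Finset.mul_sum]
    congr 1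
    have : ∀ x, (∑ c, ν c * q (x - c)) ^ 2 = ∑ c, ∑ c', (ν c * q (x - c)) * (ν c' * q (x - c')) := by
      intro x
      rw [sq, Finset.sum_mul_sum]
    simp only [this]
    have e5 : ∀ c, ∑ c', ∑ x, (ν c * q (x - c)) * (ν c' * q (x - c')) = ∑ x, ∑ c', (ν c * q (x - c)) * (ν c' * q (x - c')) :=
      fun c => Finset.sum_comm
    simp only [e5]
    rw [Finset.sum_comm]
  rw [e2, e3, e4]
  ring

/-- the entropy of a convolution, with the quadratic gain -/
lemma conv_gain (q ν : ZMod n → ℝ) (hq : ∀ x, 0 ≤ q x) (hν : ∀ x, 0 ≤ ν x) (hq1 : ∑ x, q x = 1) (hν1 : ∑ c, ν c = 1) :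
    ∑ x, Real.negMulLog (q x) + (1 / 4) * ∑ c, ∑ c', ν c * ν c' * ∑ x, (q (x - c) - q (x - c')) ^ 2 ≤
      ∑ x, Real.negMulLog (∑ c, ν c * q (x - c)) := by
  have hle : ∀ x, q x ≤ 1 := fun x => by
    rw [← hq1]
    exact Finset.single_le_sum (fun x _ => hq x) (Finset.mem_univ x)
  have h1 : ∑ x, (∑ c, ν c * Real.negMulLog (q (x - c)) + (∑ c, ν c * q (x - c) ^ 2 - (∑ c, ν c * q (x - c)) ^ 2) / 2) ≤
      ∑ x, Real.negMulLog (∑ c, ν c * q (x - c)) :=
    Finset.sum_le_sum fun x _ => gap Finset.univ ν (fun c => q (x - c)) (fun c _ => hν c) hν1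
      (fun c _ => ⟨hq _, hle _⟩)
  refine le_trans (le_of_eq ?_) h1
  rw [dist_sum q ν hν1, Finset.sum_add_distrib, ← Finset.sum_div, Finset.sum_sub_distrib]
  have e1 : ∑ x, ∑ c, ν c * Real.negMulLog (q (x - c)) = ∑ x, Real.negMulLog (q x) := by
    rw [Finset.sum_comm]
    have e2 : ∀ c, ∑ x, ν c * Real.negMulLog (q (x - c)) = ν c * ∑ x, Real.negMulLog (q x) := by
      intro c
      rw [← Finset.mul_sum, sum_shift (fun x => Real.negMulLog (q x)) c]
    simp only [e2]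
    rw [← Finset.sum_mul, hν1, one_mul]
  rw [e1]
  ring

/-- translates by multiples -/
lemma shift_nsmul (q : ZMod n → ℝ) (h : ZMod n) (j : ℕ) :
    ∑ x, (q x - q (x - j * h)) ^ 2 ≤ (j : ℝ) ^ 2 * ∑ x, (q x - q (x - h)) ^ 2 := by
  induction j with
  | zero => simp
  | succ j ih =>
    rcases Nat.eq_zero_or_pos j with rfl | hj
    · simp
    · set D := ∑ x, (q x - q (x - h)) ^ 2 with hD
      have hj0 : (0 : ℝ) < j := by exact_mod_cast hj
      have h1 : ∀ x, (j : ℝ) * (q x - q (x - ((j + 1 : ℕ) : ZMod n) * h)) ^ 2 ≤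
          ((j : ℝ) + 1) * (q x - q (x - j * h)) ^ 2 + j * (j + 1) * (q (x - j * h) - q (x - j * h - h)) ^ 2 := by
        intro x
        have e1 : x - ((j + 1 : ℕ) : ZMod n) * h = x - j * h - h := by push_cast; ring
        rw [e1]
        nlinarith [sq_nonneg ((q x - q (x - j * h)) - j * (q (x - j * h) - q (x - j * h - h)))]
      have h2 := Finset.sum_le_sum (s := Finset.univ) fun x _ => h1 x
      rw [← Finset.mul_sum, Finset.sum_add_distrib, ← Finset.mul_sum, ← Finset.mul_sum,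
        sum_shift (fun y => (q y - q (y - h)) ^ 2) (j * h), ← hD] at h2
      have h3 : ((j : ℝ) + 1) * ∑ x, (q x - q (x - j * h)) ^ 2 ≤ ((j : ℝ) + 1) * ((j : ℝ) ^ 2 * D) :=
        mul_le_mul_of_nonneg_left ih (by positivity)
      have h4 : (j : ℝ) * ∑ x, (q x - q (x - ((j + 1 : ℕ) : ZMod n) * h)) ^ 2 ≤ j * (((j : ℝ) + 1) ^ 2 * D) := by
        refine h2.trans ?_
        nlinarith
      have h5 := le_of_mul_le_mul_left h4 hj0
      push_cast
      push_cast at h5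
      exact h5

/-- translates by a unit control everything -/
lemma unit_shift (q : ZMod n → ℝ) (hq1 : ∑ x, q x = 1) {h : ZMod n} (hu : IsUnit h) :
    ∑ x, (q x - 1 / n) ^ 2 ≤ (n : ℝ) ^ 2 * ∑ x, (q x - q (x - h)) ^ 2 := by
  have hn0 : (0 : ℝ) < n := by exact_mod_cast Nat.pos_of_ne_zero (NeZero.ne n)
  set D := ∑ x, (q x - q (x - h)) ^ 2 with hD
  have hD0 : 0 ≤ D := Finset.sum_nonneg fun _ _ => sq_nonneg _
  have h1 : ∀ z : ZMod n, ∑ x, (q x - q (x - z)) ^ 2 ≤ (n : ℝ) ^ 2 * D := by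
    intro z
    obtain ⟨u, rfl⟩ := hu
    set j := (z * ↑u⁻¹ : ZMod n).val with hj
    have hjz : (j : ZMod n) * (u : ZMod n) = z := by
      rw [hj, ZMod.natCast_zmod_val, mul_assoc, Units.inv_mul, mul_one]
    have h2 := shift_nsmul q (u : ZMod n) j
    rw [hjz] at h2
    refine h2.trans (mul_le_mul_of_nonneg_right ?_ hD0)
    have : (j : ℝ) ≤ n := by exact_mod_cast (ZMod.val_lt _).le
    exact pow_le_pow_left₀ (by positivity) this 2
  have hcard : (Fintype.card (ZMod n) : ℝ) = n := by rw [ZMod.card]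
  have h3 : ∀ x, (q x - 1 / n) ^ 2 ≤ (1 / n) * ∑ z, (q x - q (x - z)) ^ 2 := by
    intro x
    have e1 : q x - 1 / n = ∑ z, (1 / (n : ℝ)) * (q x - q (x - z)) := by
      rw [← Finset.mul_sum, Finset.sum_sub_distrib, Finset.sum_const, Finset.card_univ, nsmul_eq_mul, hcard]
      have e2 : ∑ z, q (x - z) = 1 := by
        rw [← hq1]
        exact Fintype.sum_equiv (Equiv.subLeft x) _ _ fun _ => rfl
      rw [e2]
      field_simp
    rw [e1]
    have h5 := Finset.sum_mul_sq_le_sq_mul_sq (Finset.univ : Finset (ZMod n)) (fun _ => 1 / (n : ℝ)) (fun z => q x - q (x - z))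
    refine h5.trans (le_of_eq ?_)
    rw [Finset.sum_const, Finset.card_univ, nsmul_eq_mul, hcard]
    field_simp
  refine (Finset.sum_le_sum fun x _ => h3 x).trans ?_
  rw [← Finset.mul_sum, Finset.sum_comm]
  have h6 : ∑ z : ZMod n, ∑ x, (q x - q (x - z)) ^ 2 ≤ ∑ _z : ZMod n, (n : ℝ) ^ 2 * D := Finset.sum_le_sum fun z _ => h1 z
  rw [Finset.sum_const, Finset.card_univ, nsmul_eq_mul, hcard] at h6
  calc 1 / (n : ℝ) * ∑ z, ∑ x, (q x - q (x - z)) ^ 2 ≤ 1 / n * (n * ((n : ℝ) ^ 2 * D)) :=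
        mul_le_mul_of_nonneg_left h6 (by positivity)
    _ = _ := by field_simp

/-- the entropy deficit is at most the squared distance to the uniform law -/
lemma deficit (q : ZMod n → ℝ) (hq : ∀ x, 0 ≤ q x) (hq1 : ∑ x, q x = 1) :
    Real.log n - ∑ x, Real.negMulLog (q x) ≤ n * ∑ x, (q x - 1 / n) ^ 2 := by
  have hn0 : (0 : ℝ) < n := by exact_mod_cast Nat.pos_of_ne_zero (NeZero.ne n)
  have hcard : (Fintype.card (ZMod n) : ℝ) = n := by rw [ZMod.card]
  have h1 : ∀ x, q x * Real.log n - Real.negMulLog (q x) ≤ n * q x ^ 2 - q x := by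
    intro x
    rcases (hq x).eq_or_lt with h0 | h0
    · rw [← h0]; simp
    · have h2 := Real.log_le_sub_one_of_pos (show 0 < (n : ℝ) * q x by positivity)
      rw [Real.log_mul hn0.ne' h0.ne'] at h2
      have h3 := mul_le_mul_of_nonneg_left h2 h0.le
      rw [Real.negMulLog]
      nlinarith
  have h2 := Finset.sum_le_sum (s := Finset.univ) fun x _ => h1 x
  rw [Finset.sum_sub_distrib, ← Finset.sum_mul, hq1, one_mul, Finset.sum_sub_distrib, hq1, ← Finset.mul_sum] at h2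
  refine h2.trans (le_of_eq ?_)
  have h3 : ∀ x, (q x - 1 / (n : ℝ)) ^ 2 = q x ^ 2 - 2 / n * q x + (1 / (n : ℝ)) ^ 2 := fun x => by ring
  simp only [h3]
  rw [Finset.sum_add_distrib, Finset.sum_sub_distrib, ← Finset.mul_sum, hq1, Finset.sum_const, Finset.card_univ, nsmul_eq_mul, hcard]
  field_simp
  ring

end PoolAgent.Helper66.LocZ
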